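import Pool.Agent.TH280.LS.StmB
set_option autoImplicit false

/-! # Local smoothing for data with regular slices: statements about boxes and ellipsoids -/

open MeasureTheory Set Filter
open scoped ENNReal Topology

namespace Pool.Agent.Y507.LS2

open Pool.Agent.TH280.LS

/-- SYM: sets in a box which meet the lines parallel to the axes in intervals -/
def S_SYM : Prop := ∀ (m : ℕ) (S : Set (Fin m → ℝ)) (c l : Fin m → ℝ), MeasurableSet S →
  (∀ i, 0 < l i) → (∀ y ∈ S, ∀ i, c i ≤ y i ∧ y i ≤ c i + l i) →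
  (∀ (y : Fin m → ℝ) (i : Fin m), OrdConnected {t : ℝ | Function.update y i t ∈ S}) →
  ∀ (i : Fin m) (h : ℝ), volume {y : Fin m → ℝ | ¬(y + Pi.single i h ∈ S ↔ y ∈ S)} ≤
    ENNReal.ofReal (2 * ((∏ j, l j) * (|h| / l i)))

/-- ellipsoids with axes parallel to the coordinate axes -/
def ell {m : ℕ} (c l : Fin m → ℝ) : Set (Fin m → ℝ) := {y | ∑ i, ((y i - c i) / l i) ^ 2 ≤ 1}

/-- EVOL: their volume -/
def S_EVOL : Prop := ∀ m : ℕ, 0 < m → ∃ C : ℝ, 0 < C ∧ ∀ c l : Fin m → ℝ, (∀ i, 0 < l i) →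
  ENNReal.ofReal (∏ i, l i) ≤ ENNReal.ofReal C * volume (ell c l) ∧
    volume (ell c l) ≤ ENNReal.ofReal (C * ∏ i, l i)

/-- EFT: their Fourier transform -/
def S_EFT : Prop := S_BALL → ∀ m : ℕ, 0 < m → ∃ C : ℝ, 0 < C ∧ ∀ c l : Fin m → ℝ,
  (∀ i, 0 < l i) → ∀ (i : Fin m) (η : Fin m → ℝ),
    ‖∫ y in ell c l, e (-(∑ j, y j * η j))‖ * (l i * |η i|) ^ (((m : ℝ) + 1) / 2) ≤
      C * ∏ i, l i

end Pool.Agent.Y507.LS2
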