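import Pool.Agent.Y507.LS2.Super
import Pool.Agent.Y507.LS2.Stm
set_option autoImplicit false

/-! # Boxes and ellipsoids are regular -/

open MeasureTheory Set Filter
open scoped ENNReal FourierTransform RealInnerProductSpace Topology

namespace Pool.Agent.Y507.LS2

open Pool.Agent.TH280.LS

theorem box_reg (hSYM : S_SYM) {m : ℕ} {R0 Λ : ℝ} {F : (Fin m → ℝ) → ℝ} (hFm : Measurable F)
    (hF0 : ∀ y, 0 ≤ F y)
    (hF : ∀ r : ℝ, 0 < r →
      (∀ (y : Fin m → ℝ) (i : Fin m), OrdConnected {t : ℝ | r < F (Function.update y i t)}) ∧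
      ∃ c l : Fin m → ℝ, (∀ i, 0 ≤ l i ∧ l i ≤ R0) ∧ {y | r < F y} ⊆ Icc c (c + l) ∧
        ENNReal.ofReal (∏ i, l i) ≤ ENNReal.ofReal Λ * volume {y | r < F y}) :
    Reg m 1 1 R0 (max 2 Λ) F := by
  refine ⟨hFm, hF0, fun r hr => ?_⟩
  obtain ⟨hconn, c, l, hl, hbox, hprod⟩ := hF r hr
  have hSm : MeasurableSet {y | r < F y} := measurableSet_lt measurable_const hFm
  have hvolbox : volume (Icc c (c + l)) = ENNReal.ofReal (∏ i, l i) := by
    rw [Real.volume_Icc_pi, ← ENNReal.ofReal_prod_of_nonneg]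
    · simp
    · intro i _
      simp only [Pi.add_apply, add_sub_cancel_left]
      exact (hl i).1
  have hΛ2 : (2 : ℝ) ≤ max 2 Λ := le_max_left _ _
  by_cases hpos : ∀ i, 0 < l i
  · right
    have hP : 0 < ∏ i, l i := Finset.prod_pos fun i _ => hpos i
    refine ⟨l, fun i => ⟨hpos i, (hl i).2⟩, ?_, ?_, ?_, fun h => absurd h (lt_irrefl _)⟩
    · refine hprod.trans (mul_le_mul_left (ENNReal.ofReal_le_ofReal (le_max_right _ _)) _)
    · refine (measure_mono hbox).trans ?_
      rw [hvolbox]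
      refine ENNReal.ofReal_le_ofReal ?_
      nlinarith
    · intro i h
      have h1 := hSYM m {y | r < F y} c l hSm hpos
        (fun y hy j => ⟨(hbox hy).1 j, (hbox hy).2 j⟩) (fun y j => hconn y j) i h
      refine h1.trans (ENNReal.ofReal_le_ofReal ?_)
      rw [Real.rpow_one]
      have hq : 0 ≤ (∏ i, l i) * (|h| / l i) := by
        have := hpos i
        positivity
      nlinarith
  · left
    push Not at hpos
    obtain ⟨i, hi⟩ := hpos
    have hz : ∏ i, l i = 0 :=
      Finset.prod_eq_zero (Finset.mem_univ i) (le_antisymm hi (hl i).1)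
    refine measure_mono_null hbox ?_
    rw [hvolbox, hz, ENNReal.ofReal_zero]

lemma ell_meas {m : ℕ} (c l : Fin m → ℝ) : MeasurableSet (ell c l) :=
  measurableSet_le (by fun_prop) measurable_const

lemma ell_box {m : ℕ} {c l : Fin m → ℝ} (hl : ∀ i, 0 < l i) {y : Fin m → ℝ} (hy : y ∈ ell c l)
    (i : Fin m) : c i - l i ≤ y i ∧ y i ≤ c i - l i + 2 * l i := by
  have h1 : ((y i - c i) / l i) ^ 2 ≤ 1 := by
    refine le_trans ?_ hy
    exact Finset.single_le_sum (f := fun i => ((y i - c i) / l i) ^ 2)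
      (fun j _ => sq_nonneg _) (Finset.mem_univ i)
  have h2 : |(y i - c i) / l i| ≤ 1 := by
    rw [← sq_le_one_iff_abs_le_one]
    exact h1
  rw [abs_div, abs_of_pos (hl i), div_le_one (hl i), abs_le] at h2
  constructor <;> linarith [h2.1, h2.2]

lemma ell_conn {m : ℕ} {c l : Fin m → ℝ} (hl : ∀ i, 0 < l i) (y : Fin m → ℝ) (i : Fin m) :
    OrdConnected {t : ℝ | Function.update y i t ∈ ell c l} := by
  have key : ∀ t : ℝ, (Function.update y i t ∈ ell c l) ↔
      ((t - c i) / l i) ^ 2 + ∑ j ∈ Finset.univ.erase i, ((y j - c j) / l j) ^ 2 ≤ 1 := by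
    intro t
    unfold ell
    rw [mem_setOf_eq, ← Finset.add_sum_erase _ _ (Finset.mem_univ i), Function.update_self]
    have : ∑ j ∈ Finset.univ.erase i, ((Function.update y i t j - c j) / l j) ^ 2 =
        ∑ j ∈ Finset.univ.erase i, ((y j - c j) / l j) ^ 2 := by
      refine Finset.sum_congr rfl fun j hj => ?_
      rw [Function.update_of_ne (Finset.ne_of_mem_erase hj)]
    rw [this]
  refine ⟨fun s hs t ht x hx => ?_⟩
  rw [mem_setOf_eq, key] at hs ht ⊢
  have hli := hl i
  set K := ∑ j ∈ Finset.univ.erase i, ((y j - c j) / l j) ^ 2 with hK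
  have h1 : (s - c i) / l i ≤ (x - c i) / l i :=
    div_le_div_of_nonneg_right (by linarith [hx.1]) hli.le
  have h2 : (x - c i) / l i ≤ (t - c i) / l i :=
    div_le_div_of_nonneg_right (by linarith [hx.2]) hli.le
  rcases le_total 0 ((x - c i) / l i) with h | h
  · nlinarith
  · nlinarith

theorem ell_reg (hSYM : S_SYM) (hEVOL : S_EVOL) (hEFT : S_EFT) (hBALL : S_BALL) {m : ℕ}
    (hm : 0 < m) : ∃ Λ : ℝ, 0 < Λ ∧ ∀ (R0 : ℝ) (F : (Fin m → ℝ) → ℝ), Measurable F →
      (∀ y, 0 ≤ F y) → (∀ r : ℝ, 0 < r → volume {y | r < F y} = 0 ∨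
        ∃ c l : Fin m → ℝ, (∀ i, 0 < l i ∧ l i ≤ R0) ∧ {y | r < F y} =ᵐ[volume] ell c l) →
      Reg m (((m : ℝ) + 1) / 2) 1 R0 Λ F := by
  obtain ⟨C1, hC1, hvol⟩ := hEVOL m hm
  obtain ⟨C2, hC2, hft⟩ := hEFT hBALL m hm
  refine ⟨C1 + C2 + 2 ^ m, by positivity, ?_⟩
  intro R0 F hFm hF0 hF
  refine ⟨hFm, hF0, fun r hr => ?_⟩
  have h2m : (0 : ℝ) < 2 ^ m := by positivity
  rcases hF r hr with h | ⟨c, l, hl, hae⟩
  · left
    exact h
  right
  have hP : 0 < ∏ i, l i := Finset.prod_pos fun i _ => (hl i).1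
  have hv : volume {y | r < F y} = volume (ell c l) := measure_congr hae
  refine ⟨l, hl, ?_, ?_, ?_, fun _ i η => ?_⟩
  · rw [hv]
    exact (hvol c l fun i => (hl i).1).1.trans
      (mul_le_mul_left (ENNReal.ofReal_le_ofReal (by linarith)) _)
  · rw [hv]
    refine (hvol c l fun i => (hl i).1).2.trans (ENNReal.ofReal_le_ofReal ?_)
    exact mul_le_mul_of_nonneg_right (by linarith) hP.le
  · intro i h
    have h1 := hSYM m (ell c l) (fun j => c j - l j) (fun j => 2 * l j) (ell_meas c l)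
      (fun j => by have := (hl j).1; positivity) (fun y hy j => ell_box (fun j => (hl j).1) hy j)
      (fun y j => ell_conn (fun j => (hl j).1) y j) i h
    have h2 : {y | ¬(r < F (y + Pi.single i h) ↔ r < F y)} =ᵐ[volume]
        {y : Fin m → ℝ | ¬(y + Pi.single i h ∈ ell c l ↔ y ∈ ell c l)} := by
      have h3 : ∀ᵐ y : Fin m → ℝ, (r < F y ↔ y ∈ ell c l) := by
        filter_upwards [hae] with y hy
        exact iff_of_eq hy
      have h4 : ∀ᵐ y : Fin m → ℝ,
          (r < F (y + Pi.single i h) ↔ y + Pi.single i h ∈ ell c l) :=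
        (measurePreserving_add_right (volume : Measure (Fin m → ℝ))
          (Pi.single i h)).quasiMeasurePreserving.ae h3
      filter_upwards [h3, h4] with y h5 h6
      apply propext
      change (¬(r < F (y + Pi.single i h) ↔ r < F y)) ↔
        ¬(y + Pi.single i h ∈ ell c l ↔ y ∈ ell c l)
      rw [h5, h6]
    rw [measure_congr h2]
    refine h1.trans (ENNReal.ofReal_le_ofReal ?_)
    rw [Real.rpow_one]
    have hli := (hl i).1
    have e1 : 2 * ((∏ j, (2 * l j)) * (|h| / (2 * l i))) =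
        2 ^ m * ((∏ j, l j) * (|h| / l i)) := by
      rw [Finset.prod_mul_distrib, Finset.prod_const, Finset.card_univ, Fintype.card_fin]
      field_simp
    rw [e1]
    have hq : 0 ≤ (∏ i, l i) * (|h| / l i) := by positivity
    nlinarith
  · have h1 : ∫ y in {y | r < F y}, e (-(∑ j, y j * η j)) =
        ∫ y in ell c l, e (-(∑ j, y j * η j)) := setIntegral_congr_set hae
    rw [h1]
    refine (hft c l (fun i => (hl i).1) i η).trans ?_
    exact mul_le_mul_of_nonneg_right (by linarith) hP.le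

end Pool.Agent.Y507.LS2
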