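import Pool.Agent.Y507.LS2.Pieces
import Pool.Agent.TH280.LS.K6
set_option autoImplicit false

/-! # Data with regular slices: the estimate for one datum -/

open MeasureTheory Set Filter
open scoped ENNReal FourierTransform RealInnerProductSpace Topology

namespace Pool.Agent.Y507.LS2

open Pool.Agent.TH280.LS
open Pool.Agent.Y507.LS (Wp kp_le_one)

theorem tw (hE4 : S_E4) (hONEK : S_ONEK) (hT2K : S_T2K) (hT4K : S_ONEK → S_T4K) (hTPK : S_TPK)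
    {m : ℕ} (hm : 0 < m) {s1 s2 p : ℝ} (hs1 : 0 < s1) (hs2 : 0 ≤ s2) (hp : 2 ≤ p) (hp4 : p ≤ 4) :
    K5.TW m (Wp m p s2) (s1 + s2) p := by
  obtain ⟨C, hC, hE⟩ := hE4
  have hE4w : E4w m (fun η => ∏ i, |η i|) := ⟨C ^ m, by positivity, fun H hH => hE m H hH⟩
  have hmeas : Measurable (fun η : Fin m → ℝ => ∏ i, |η i|) := by fun_prop
  have hnn : ∀ η : Fin m → ℝ, 0 ≤ ∏ i, |η i| := fun η => Finset.prod_nonneg fun i _ => abs_nonneg _
  have hne : ∀ᵐ η : Fin m → ℝ, ∏ i, |η i| ≠ 0 := by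
    have h1 : ∀ᵐ η : Fin m → ℝ, ∀ i, η i ≠ 0 := by
      rw [ae_all_iff]
      intro i
      rw [ae_iff]
      have h2 := Measure.pi_hyperplane (fun _ : Fin m => (volume : Measure ℝ)) i 0
      simpa [volume_pi] using h2
    filter_upwards [h1] with η hη
    rw [Finset.prod_ne_zero_iff]
    intro i _
    exact abs_ne_zero.2 (hη i)
  have hkm : Measurable (kp m s2) := by
    unfold kp nr
    exact Measurable.pow_const (by fun_prop) _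
  have hk0 : ∀ η, 0 < kp m s2 η := by
    intro η
    unfold kp
    have : 0 ≤ nr η := Real.sqrt_nonneg _
    positivity
  exact hTPK m _ _ (s1 + s2) p hm hmeas hnn hne hkm hk0 (kp_le_one m hs2) (by linarith) hp hp4
    (hT2K m s1 s2 hm hs1 hs2) (hT4K hONEK m _ s1 s2 hm hmeas hnn hE4w hs1 hs2)

/-- the class of data -/
def Cls (m N : ℕ) (β γ p R0 Λ : ℝ) (f : EuclideanSpace ℝ (Fin (m + 1)) → ℂ) : Prop :=
  ∃ v : OrthonormalBasis (Fin (m + 1)) ℝ (EuclideanSpace ℝ (Fin (m + 1))), ∀ x : ℝ,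
    ∃ (b : Fin N → ℂ) (F : Fin N → (Fin m → ℝ) → ℝ), (∀ j, Reg m β γ R0 Λ (F j)) ∧
      (∀ y : Fin m → ℝ, f (∑ i, y i • v i.castSucc + x • v (Fin.last m)) =
        ∑ j, b j * ((F j y : ℝ) : ℂ)) ∧
      ∀ j, ∫⁻ y, ‖b j * ((F j y : ℝ) : ℂ)‖ₑ ^ p ≤
        ENNReal.ofReal Λ * ∫⁻ y, ‖∑ j, b j * ((F j y : ℝ) : ℂ)‖ₑ ^ p

theorem cls_one (hE4 : S_E4) (hONEK : S_ONEK) (hT2K : S_T2K) (hT4K : S_ONEK → S_T4K)
    (hTPK : S_TPK) {m : ℕ} (hm : 0 < m) (N : ℕ) {β γ p s R0 Λ : ℝ} (hR : 0 < R0) (hΛ : 0 < Λ)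
    (hγ : 0 < γ) (hγβ : γ ≤ β) (hp : 2 ≤ p) (hp4 : p ≤ 4) (hs : 0 < s)
    (hcond : ((m : ℝ) - β) * (p - 2) - γ < s * p) : OneD m s p (Cls m N β γ p R0 Λ) := by
  have hp0 : 0 < p := by linarith
  set σ0 : ℝ := max 0 ((((m : ℝ) - β) * (p - 2) - γ) / p) with hσ0
  have hσs : σ0 < s := max_lt hs (by rw [div_lt_iff₀ hp0]; exact hcond)
  have hσ1 : 0 ≤ σ0 := le_max_left _ _
  have hσ2 : (((m : ℝ) - β) * (p - 2) - γ) / p ≤ σ0 := le_max_right _ _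
  obtain ⟨s1, s2, hs1, hs20, hs2b, hsum⟩ : ∃ s1 s2 : ℝ, 0 < s1 ∧ 0 < s2 ∧ σ0 < s2 ∧
      s1 + s2 = s := ⟨(s - σ0) / 2, (s + σ0) / 2, by linarith, by linarith, by linarith, by ring⟩
  have hc2 : ((m : ℝ) - β) * (p - 2) - γ < s2 * p := by
    have := lt_of_le_of_lt hσ2 hs2b
    rwa [div_lt_iff₀ hp0] at this
  obtain ⟨C2, hC2, hcl⟩ := sum_slice hm hR hΛ hγ hγβ hp hs20 hc2 N
  have hTW := tw hE4 hONEK hT2K hT4K hTPK hm hs1 hs20.le hp hp4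
  rw [hsum] at hTW
  obtain ⟨C, hC, h⟩ := K5.one_datum_gen m _ s p C2 hs hC2 hTW
  refine ⟨C, hC, fun f hf hc => h f hf ?_⟩
  obtain ⟨v, hv⟩ := hc
  refine ⟨v.repr, fun w => f (v.repr.symm w), fun z => by simp, ?_⟩
  intro x _
  obtain ⟨b, F, hF, hfF, hbF⟩ := hv x
  have heq : ∀ y : Fin m → ℝ, f (v.repr.symm ((Zc m).symm (x, y))) =
      ∑ j, b j * ((F j y : ℝ) : ℂ) := by
    intro y
    rw [← hfF y, ← v.sum_repr_symm, Fin.sum_univ_castSucc]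
    have h4 : Zc m ((Zc m).symm (x, y)) = (x, y) := MeasurableEquiv.apply_symm_apply _ _
    rw [Zc_apply] at h4
    have h5 : ((Zc m).symm (x, y)) (Fin.last m) = x := congrArg Prod.fst h4
    have h6 : ∀ i : Fin m, ((Zc m).symm (x, y)) i.castSucc = y i :=
      fun i => congrFun (congrArg Prod.snd h4) i
    rw [h5]
    simp only [h6]
  simp only [heq]
  exact hcl b F hF hbF

end Pool.Agent.Y507.LS2
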