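import Pool.Agent.Y507.LS2.Super
set_option autoImplicit false

/-! # Sums of functions with regular superlevel sets -/

open MeasureTheory Set Filter
open scoped ENNReal FourierTransform RealInnerProductSpace Topology

namespace Pool.Agent.Y507.LS2

open Pool.Agent.TH280.LS
open Pool.Agent.Y507.LS (meas_Wp Wp integrable_char measurable_ftm)

lemma reg_vol {m : ℕ} {β γ R0 Λ : ℝ} (hΛ : 0 < Λ) {F : (Fin m → ℝ) → ℝ}
    (hF : Reg m β γ R0 Λ F) (r : ℝ) (hr : 0 < r) :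
    volume {y | r < F y} ≤ ENNReal.ofReal (Λ * R0 ^ m) := by
  rcases hF.2.2 r hr with h | ⟨a, ha, -, h2, -⟩
  · rw [h]
    exact bot_le
  · refine h2.trans (ENNReal.ofReal_le_ofReal (mul_le_mul_of_nonneg_left ?_ hΛ.le))
    have : ∏ i : Fin m, a i ≤ ∏ _i : Fin m, R0 :=
      Finset.prod_le_prod (fun i _ => (ha i).1.le) fun i _ => (ha i).2
    rwa [Finset.prod_const, Finset.card_univ, Fintype.card_fin] at this

lemma reg_supp {m : ℕ} {β γ R0 Λ : ℝ} (hΛ : 0 < Λ) {F : (Fin m → ℝ) → ℝ}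
    (hF : Reg m β γ R0 Λ F) : volume {y | 0 < F y} < ⊤ := by
  have h1 : {y | 0 < F y} = ⋃ n : ℕ, {y | 1 / ((n : ℝ) + 1) < F y} := by
    ext y
    simp only [mem_setOf_eq, mem_iUnion]
    constructor
    · intro h
      exact exists_nat_one_div_lt h
    · rintro ⟨n, hn⟩
      exact lt_trans (by positivity) hn
  have hmono : Monotone fun n : ℕ => {y | 1 / ((n : ℝ) + 1) < F y} := by
    intro i j hij y hy
    refine lt_of_le_of_lt ?_ (show 1 / ((i : ℝ) + 1) < F y from hy)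
    have : (i : ℝ) ≤ j := by exact_mod_cast hij
    exact one_div_le_one_div_of_le (by positivity) (by linarith)
  rw [h1, hmono.measure_iUnion]
  refine lt_of_le_of_lt (iSup_le fun n => reg_vol hΛ hF _ (by positivity)) ENNReal.ofReal_lt_top

lemma le_one_add_rpow {p : ℝ} (hp : 1 ≤ p) (x : ℝ≥0∞) : x ≤ 1 + x ^ p := by
  rcases le_total x 1 with h | h
  · exact h.trans le_self_add
  · refine le_trans ?_ le_add_self
    calc x = x ^ (1 : ℝ) := (ENNReal.rpow_one x).symm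
      _ ≤ x ^ p := ENNReal.rpow_le_rpow_of_exponent_le h hp

lemma reg_int {m : ℕ} {β γ R0 Λ p : ℝ} (hp : 1 ≤ p) (hΛ : 0 < Λ) {F : (Fin m → ℝ) → ℝ}
    (hF : Reg m β γ R0 Λ F) (hFp : ∫⁻ y, ‖F y‖ₑ ^ p < ⊤) : Integrable F := by
  refine ⟨hF.1.aestronglyMeasurable, ?_⟩
  have h1 : ∀ y, ‖F y‖ₑ ≤ {y | 0 < F y}.indicator (fun _ => (1 : ℝ≥0∞)) y + ‖F y‖ₑ ^ p := by
    intro y
    by_cases h : 0 < F y
    · rw [indicator_of_mem (show y ∈ {y | 0 < F y} from h)]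
      exact le_one_add_rpow hp _
    · have : F y = 0 := le_antisymm (not_lt.1 h) (hF.2.1 y)
      rw [this, enorm_zero]
      exact bot_le
  have hm : MeasurableSet {y | 0 < F y} := measurableSet_lt measurable_const hF.1
  refine lt_of_le_of_lt (lintegral_mono h1) ?_
  rw [lintegral_add_left (measurable_const.indicator hm), lintegral_indicator hm, setLIntegral_one]
  exact ENNReal.add_lt_top.2 ⟨reg_supp hΛ hF, hFp⟩

lemma ftm_smul {m : ℕ} (b : ℂ) (g : (Fin m → ℝ) → ℂ) (η : Fin m → ℝ) :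
    ftm m (fun y => b * g y) η = b * ftm m g η := by
  unfold ftm
  rw [← integral_const_mul]
  refine integral_congr_ae (Eventually.of_forall fun y => ?_)
  simp only
  ring

theorem sum_slice {m : ℕ} (hm : 0 < m) {β γ p s2 R0 Λ : ℝ} (hR : 0 < R0)
    (hΛ : 0 < Λ) (hγ : 0 < γ) (hγβ : γ ≤ β) (hp : 2 ≤ p) (hs : 0 < s2)
    (hcond : ((m : ℝ) - β) * (p - 2) - γ < s2 * p) (N : ℕ) :
    ∃ C2 : ℝ, 0 < C2 ∧ ∀ (b : Fin N → ℂ) (F : Fin N → (Fin m → ℝ) → ℝ),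
      (∀ j, Reg m β γ R0 Λ (F j)) →
      (∀ j, ∫⁻ y, ‖b j * ((F j y : ℝ) : ℂ)‖ₑ ^ p ≤
        ENNReal.ofReal Λ * ∫⁻ y, ‖∑ j, b j * ((F j y : ℝ) : ℂ)‖ₑ ^ p) →
      ∫⁻ η : Fin m → ℝ, ENNReal.ofReal (Wp m p s2 η) *
          ‖ftm m (fun y => ∑ j, b j * ((F j y : ℝ) : ℂ)) η‖ₑ ^ p ≤
        ENNReal.ofReal C2 * ∫⁻ y, ‖∑ j, b j * ((F j y : ℝ) : ℂ)‖ₑ ^ p := by
  have hp0 : 0 < p := by linarith
  obtain ⟨C, hC, hsl⟩ := reg_slice hm hR hΛ hγ hγβ hp hs hcond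
  refine ⟨(N : ℝ) ^ (p - 1) * (N * (C * Λ)) + 1, by positivity, ?_⟩
  intro b F hF hbF
  set I : ℝ≥0∞ := ∫⁻ y, ‖∑ j, b j * ((F j y : ℝ) : ℂ)‖ₑ ^ p with hI
  by_cases hIt : I = ⊤
  · rw [hIt, ENNReal.mul_top]
    · exact le_top
    · rw [ne_eq, ENNReal.ofReal_eq_zero, not_le]
      positivity
  have hpt : ∀ (b : ℂ) (x : ℝ), ‖b * (x : ℂ)‖ₑ ^ p = ‖b‖ₑ ^ p * ‖x‖ₑ ^ p := by
    intro b x
    rw [enorm_mul, ENNReal.mul_rpow_of_nonneg _ _ hp0.le]
    congr 2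
    rw [← ofReal_norm, Complex.norm_real, ofReal_norm]
  have hone : ∀ j, Integrable (fun y => b j * ((F j y : ℝ) : ℂ)) ∧
      ∫⁻ η : Fin m → ℝ, ENNReal.ofReal (Wp m p s2 η) *
        ‖ftm m (fun y => b j * ((F j y : ℝ) : ℂ)) η‖ₑ ^ p ≤
      ENNReal.ofReal (C * Λ) * I := by
    intro j
    by_cases hb : b j = 0
    · constructor
      · simp only [hb, zero_mul]
        exact integrable_zero _ _ _
      · have h0 : ∀ η, ‖ftm m (fun y => b j * ((F j y : ℝ) : ℂ)) η‖ₑ ^ p = 0 := by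
          intro η
          rw [ftm_smul, hb, zero_mul, enorm_zero, ENNReal.zero_rpow_of_pos hp0]
        simp [h0]
    · have hbp : ‖b j‖ₑ ^ p ≠ 0 := by
        rw [ne_eq, ENNReal.rpow_eq_zero_iff]
        simp [hb, hp0, hp0.le]
      have hbt : ‖b j‖ₑ ^ p ≠ ⊤ := ENNReal.rpow_ne_top_of_nonneg hp0.le enorm_ne_top
      have h1 : ∫⁻ y, ‖b j * ((F j y : ℝ) : ℂ)‖ₑ ^ p = ‖b j‖ₑ ^ p * ∫⁻ y, ‖F j y‖ₑ ^ p := by
        simp only [hpt]
        rw [lintegral_const_mul' _ _ hbt]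
      have h2 : ‖b j‖ₑ ^ p * ∫⁻ y, ‖F j y‖ₑ ^ p ≤ ENNReal.ofReal Λ * I := h1 ▸ hbF j
      have h3 : ∫⁻ y, ‖F j y‖ₑ ^ p < ⊤ := by
        by_contra hcon
        rw [not_lt, top_le_iff] at hcon
        rw [hcon, ENNReal.mul_top hbp, top_le_iff] at h2
        exact (ENNReal.mul_ne_top ENNReal.ofReal_ne_top hIt) h2
      have h4 : Integrable (F j) := reg_int (by linarith) hΛ (hF j) h3
      refine ⟨h4.ofReal.const_mul _, ?_⟩
      have h5 : ∀ η, ‖ftm m (fun y => b j * ((F j y : ℝ) : ℂ)) η‖ₑ ^ p =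
          ‖b j‖ₑ ^ p * ‖ftm m (fun y => ((F j y : ℝ) : ℂ)) η‖ₑ ^ p := by
        intro η
        rw [ftm_smul, enorm_mul, ENNReal.mul_rpow_of_nonneg _ _ hp0.le]
      calc ∫⁻ η : Fin m → ℝ, ENNReal.ofReal (Wp m p s2 η) *
            ‖ftm m (fun y => b j * ((F j y : ℝ) : ℂ)) η‖ₑ ^ p
          = ‖b j‖ₑ ^ p * ∫⁻ η : Fin m → ℝ, ENNReal.ofReal (Wp m p s2 η) *
            ‖ftm m (fun y => ((F j y : ℝ) : ℂ)) η‖ₑ ^ p := by
            rw [← lintegral_const_mul' _ _ hbt]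
            refine lintegral_congr fun η => ?_
            rw [h5]
            ring
        _ ≤ ‖b j‖ₑ ^ p * (ENNReal.ofReal C * ∫⁻ y, ‖F j y‖ₑ ^ p) :=
            mul_le_mul_right (hsl (F j) (hF j) h4) _
        _ = ENNReal.ofReal C * (‖b j‖ₑ ^ p * ∫⁻ y, ‖F j y‖ₑ ^ p) := by ring
        _ ≤ ENNReal.ofReal C * (ENNReal.ofReal Λ * I) := mul_le_mul_right h2 _
        _ = _ := by rw [ENNReal.ofReal_mul hC.le, mul_assoc]
  have hsum : ∀ η, ftm m (fun y => ∑ j, b j * ((F j y : ℝ) : ℂ)) η =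
      ∑ j, ftm m (fun y => b j * ((F j y : ℝ) : ℂ)) η := by
    intro η
    unfold ftm
    rw [← integral_finsetSum _ fun j _ => integrable_char (hone j).1 η]
    refine integral_congr_ae (Eventually.of_forall fun y => ?_)
    simp only
    rw [Finset.mul_sum]
  have hpow : ∀ η, ENNReal.ofReal (Wp m p s2 η) *
      ‖ftm m (fun y => ∑ j, b j * ((F j y : ℝ) : ℂ)) η‖ₑ ^ p ≤
      ENNReal.ofReal ((N : ℝ) ^ (p - 1)) * ∑ j, ENNReal.ofReal (Wp m p s2 η) *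
        ‖ftm m (fun y => b j * ((F j y : ℝ) : ℂ)) η‖ₑ ^ p := by
    intro η
    rw [hsum, ← Finset.mul_sum, mul_left_comm]
    refine mul_le_mul_right ?_ _
    have h1 : ‖∑ j, ftm m (fun y => b j * ((F j y : ℝ) : ℂ)) η‖ₑ ≤
        ∑ j, ‖ftm m (fun y => b j * ((F j y : ℝ) : ℂ)) η‖ₑ := enorm_sum_le _ _
    refine (ENNReal.rpow_le_rpow h1 hp0.le).trans ?_
    have h2 := ENNReal.rpow_sum_le_const_mul_sum_rpow (s := (Finset.univ : Finset (Fin N)))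
      (f := fun j => ‖ftm m (fun y => b j * ((F j y : ℝ) : ℂ)) η‖ₑ) (by linarith : (1 : ℝ) ≤ p)
    rw [Finset.card_univ, Fintype.card_fin] at h2
    rw [← ENNReal.ofReal_rpow_of_nonneg (Nat.cast_nonneg N) (by linarith : (0 : ℝ) ≤ p - 1),
      ENNReal.ofReal_natCast]
    exact h2
  calc ∫⁻ η : Fin m → ℝ, ENNReal.ofReal (Wp m p s2 η) *
          ‖ftm m (fun y => ∑ j, b j * ((F j y : ℝ) : ℂ)) η‖ₑ ^ p
      ≤ ∫⁻ η : Fin m → ℝ, ENNReal.ofReal ((N : ℝ) ^ (p - 1)) * ∑ j,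
          ENNReal.ofReal (Wp m p s2 η) *
          ‖ftm m (fun y => b j * ((F j y : ℝ) : ℂ)) η‖ₑ ^ p := lintegral_mono hpow
    _ = ENNReal.ofReal ((N : ℝ) ^ (p - 1)) * ∑ j, ∫⁻ η : Fin m → ℝ,
          ENNReal.ofReal (Wp m p s2 η) *
          ‖ftm m (fun y => b j * ((F j y : ℝ) : ℂ)) η‖ₑ ^ p := by
        rw [lintegral_const_mul' _ _ ENNReal.ofReal_ne_top, lintegral_finsetSum]
        intro j _
        exact (meas_Wp m p s2).ennreal_ofReal.mul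
          ((measurable_ftm (hone j).1).enorm.pow_const p)
    _ ≤ ENNReal.ofReal ((N : ℝ) ^ (p - 1)) * ∑ _j : Fin N, ENNReal.ofReal (C * Λ) * I :=
        mul_le_mul_right (Finset.sum_le_sum fun j _ => (hone j).2) _
    _ = ENNReal.ofReal ((N : ℝ) ^ (p - 1) * (N * (C * Λ))) * I := by
        have e1 : ENNReal.ofReal ((N : ℝ) ^ (p - 1) * (N * (C * Λ))) =
            ENNReal.ofReal ((N : ℝ) ^ (p - 1)) * ((N : ℝ≥0∞) * ENNReal.ofReal (C * Λ)) := by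
          rw [ENNReal.ofReal_mul (by positivity), ENNReal.ofReal_mul (Nat.cast_nonneg N),
            ENNReal.ofReal_natCast]
        rw [Finset.sum_const, Finset.card_univ, Fintype.card_fin, nsmul_eq_mul, e1]
        ring
    _ ≤ _ := by
        refine mul_le_mul_left (ENNReal.ofReal_le_ofReal ?_) _
        linarith

end Pool.Agent.Y507.LS2
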