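import Pool.Agent.Y507.LS.Gain
set_option autoImplicit false

/-! # The weighted bound for one function with Fourier decay -/

open MeasureTheory Set Filter
open scoped ENNReal FourierTransform RealInnerProductSpace Topology

namespace Pool.Agent.Y507.LS2

open Pool.Agent.TH280.LS
open Pool.Agent.Y507.LS

theorem fatom_weight {m : ℕ} (hm : 0 < m) {β₀ β γ M p s2 θ R0 : ℝ} {a : Fin m → ℝ}
    {g : (Fin m → ℝ) → ℂ} (ha : ∀ i, 0 < a i) (haR : ∀ i, a i ≤ R0) (hR : 0 < R0)
    (hM : 0 ≤ M) (hθ0 : 0 ≤ θ) (hθγ : θ < γ) (hp : 2 ≤ p) (hs : 0 ≤ s2)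
    (hθ : ((m : ℝ) - β) * (p - 2) - s2 * p ≤ θ) (hg : Atom m β₀ γ a M g)
    (hD : ∀ (i : Fin m) (η : Fin m → ℝ), η i ≠ 0 →
      ‖ftm m g η‖ ≤ M * (∏ i, a i) * (a i * |η i|) ^ (-β)) :
    ∫⁻ η : Fin m → ℝ, ENNReal.ofReal (Wp m p s2 η) * ‖ftm m g η‖ₑ ^ p ≤
      ENNReal.ofReal (CC m p s2 γ θ R0 * (M ^ p * ∏ i, a i)) := by
  have hP : 0 < ∏ i, a i := Finset.prod_pos fun i _ => ha i
  have hγ : 0 ≤ γ := by linarith
  have hq1 : (2 : ℝ) ^ (θ - γ) < 1 := Real.rpow_lt_one_of_one_lt_of_neg (by norm_num) (by linarith)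
  have hq2 : 0 < (1 - (2 : ℝ) ^ (θ - γ))⁻¹ := inv_pos.2 (by linarith)
  set P := ∏ i, a i with hPd
  set Lo : Set (Fin m → ℝ) := {η | ∀ i, a i * |η i| ≤ 1} with hLo
  set Hi : Fin m → Set (Fin m → ℝ) := fun i => {η | 1 ≤ a i * |η i|} with hHi
  have hLom : MeasurableSet Lo := by
    rw [hLo, setOf_forall]
    exact MeasurableSet.iInter fun i => measurableSet_le (meas_abs a i) measurable_const
  have hHim : ∀ i, MeasurableSet (Hi i) := fun i => measurableSet_le measurable_const (meas_abs a i)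
  set K : ℝ := M ^ (p - 2) * R0 ^ (s2 * p) with hK
  have hK0 : 0 ≤ K := by positivity
  have hpt : ∀ η : Fin m → ℝ, ENNReal.ofReal (Wp m p s2 η) * ‖ftm m g η‖ₑ ^ p ≤
      Lo.indicator (fun _ => ENNReal.ofReal (M ^ p * P ^ 2)) η +
      ∑ i, (Hi i).indicator (fun η => ENNReal.ofReal K *
        (ENNReal.ofReal ((a i * |η i|) ^ θ) * ‖ftm m g η‖ₑ ^ 2)) η := by
    intro η
    have hW0 : 0 ≤ Wp m p s2 η := by
      unfold Wp
      exact mul_nonneg (Real.rpow_nonneg (Finset.prod_nonneg fun i _ => abs_nonneg _) _)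
        (Real.rpow_nonneg (kp_nonneg m s2 η) _)
    have hGM := atom_bdd ha hM hg η
    rw [enorm_pow (by linarith : (0:ℝ) ≤ p), ← ENNReal.ofReal_mul hW0]
    by_cases hlow : ∀ i, a i * |η i| ≤ 1
    · refine le_trans ?_ le_self_add
      rw [indicator_of_mem (show η ∈ Lo from hlow)]
      exact ENNReal.ofReal_le_ofReal (core_low ha hp hs hM (norm_nonneg _) hGM η hlow)
    · push Not at hlow
      obtain ⟨i1, hi1⟩ := hlow
      obtain ⟨i, -, hi⟩ := Finset.exists_max_image (Finset.univ : Finset (Fin m))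
        (fun j => a j * |η j|) ⟨⟨0, hm⟩, Finset.mem_univ _⟩
      have hN : 1 ≤ a i * |η i| := hi1.le.trans (hi i1 (Finset.mem_univ _))
      have hηi : η i ≠ 0 := by
        intro h0
        rw [h0, abs_zero, mul_zero] at hN
        linarith
      have hdec := hD i η hηi
      refine le_trans ?_ le_add_self
      refine le_trans ?_ (Finset.single_le_sum (f := fun i => (Hi i).indicator
        (fun η => ENNReal.ofReal K *
        (ENNReal.ofReal ((a i * |η i|) ^ θ) * ‖ftm m g η‖ₑ ^ 2)) η)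
        (fun _ _ => bot_le) (Finset.mem_univ i))
      rw [indicator_of_mem (show η ∈ Hi i from hN), enorm_sq, ← ENNReal.ofReal_mul (by positivity),
        ← ENNReal.ofReal_mul hK0]
      exact ENNReal.ofReal_le_ofReal (core_high ha hp hs hM hR haR (norm_nonneg _) η i rfl hN
        (fun j => hi j (Finset.mem_univ _)) hdec hθ)
  have hmf : Measurable (ftm m g) := measurable_ftm hg.1
  have hKM : K * (M ^ 2 * P) = R0 ^ (s2 * p) * (M ^ p * P) := by
    have e1 : M ^ p = M ^ (p - 2) * M ^ 2 := by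
      rw [← Real.rpow_natCast M 2, ← Real.rpow_add_of_nonneg hM (by linarith) (by norm_num)]
      congr 1
      push_cast
      ring
    rw [hK, e1]
    ring
  calc ∫⁻ η : Fin m → ℝ, ENNReal.ofReal (Wp m p s2 η) * ‖ftm m g η‖ₑ ^ p
      ≤ ∫⁻ η : Fin m → ℝ, (Lo.indicator (fun _ => ENNReal.ofReal (M ^ p * P ^ 2)) η +
      ∑ i, (Hi i).indicator (fun η => ENNReal.ofReal K *
        (ENNReal.ofReal ((a i * |η i|) ^ θ) * ‖ftm m g η‖ₑ ^ 2)) η) := lintegral_mono hpt
    _ = (∫⁻ η : Fin m → ℝ, Lo.indicator (fun _ => ENNReal.ofReal (M ^ p * P ^ 2)) η) +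
        ∑ i, ∫⁻ η : Fin m → ℝ, (Hi i).indicator (fun η => ENNReal.ofReal K *
        (ENNReal.ofReal ((a i * |η i|) ^ θ) * ‖ftm m g η‖ₑ ^ 2)) η := by
        rw [lintegral_add_left (measurable_const.indicator hLom), lintegral_finsetSum]
        intro i _
        refine Measurable.indicator ?_ (hHim i)
        have := meas_abs a i
        fun_prop
    _ ≤ ENNReal.ofReal (2 ^ m * (M ^ p * P)) +
        ∑ _i : Fin m, ENNReal.ofReal (R0 ^ (s2 * p) * (2 ^ θ * (1 - 2 ^ (θ - γ))⁻¹) *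
          (M ^ p * P)) := by
        refine add_le_add ?_ (Finset.sum_le_sum fun i _ => ?_)
        · rw [lintegral_indicator hLom, setLIntegral_const, hLo, vol_low ha,
            ← ENNReal.ofReal_mul (by positivity)]
          refine ENNReal.ofReal_le_ofReal (le_of_eq ?_)
          rw [← hPd]
          field_simp
        · rw [lintegral_indicator (hHim i), lintegral_const_mul' _ _ ENNReal.ofReal_ne_top]
          refine (mul_le_mul_right (atom_high ha hγ hθ0 hθγ hg i) _).trans (le_of_eq ?_)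
          rw [← ENNReal.ofReal_mul hK0]
          congr 1
          rw [← hPd]
          calc K * (2 ^ θ * (1 - 2 ^ (θ - γ))⁻¹ * (M ^ 2 * P))
              = (2 ^ θ * (1 - 2 ^ (θ - γ))⁻¹) * (K * (M ^ 2 * P)) := by ring
            _ = _ := by rw [hKM]; ring
    _ = ENNReal.ofReal (CC m p s2 γ θ R0 * (M ^ p * P)) := by
        rw [Finset.sum_const, Finset.card_univ, Fintype.card_fin, nsmul_eq_mul,
          ← ENNReal.ofReal_natCast, ← ENNReal.ofReal_mul (by positivity),
          ← ENNReal.ofReal_add (by positivity) (by positivity)]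
        congr 1
        unfold CC
        ring

theorem fatom_gain {m : ℕ} (hm : 0 < m) {β₀ β γ p s2 R0 : ℝ} (hR : 0 < R0) (hγ : 0 < γ)
    (hp : 2 ≤ p) (hs : 0 < s2) (hcond : ((m : ℝ) - β) * (p - 2) - γ < s2 * p) :
    ∃ c C : ℝ, 0 < c ∧ 0 < C ∧ ∀ (a : Fin m → ℝ) (M : ℝ) (g : (Fin m → ℝ) → ℂ),
      (∀ i, 0 < a i) → (∀ i, a i ≤ R0) → 0 ≤ M → Atom m β₀ γ a M g →
      (∀ (i : Fin m) (η : Fin m → ℝ), η i ≠ 0 →
        ‖ftm m g η‖ ≤ M * (∏ i, a i) * (a i * |η i|) ^ (-β)) →
      ∫⁻ η : Fin m → ℝ, ENNReal.ofReal (Wp m p s2 η) * ‖ftm m g η‖ₑ ^ p ≤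
        ENNReal.ofReal (C * (M ^ p * (∏ i, a i) ^ (1 + c))) := by
  have hp0 : 0 < p := by linarith
  have hm0 : (0 : ℝ) < m := by exact_mod_cast hm
  set σ0 : ℝ := max 0 ((((m : ℝ) - β) * (p - 2) - γ) / p) with hσ0
  have hσs : σ0 < s2 := max_lt hs (by rw [div_lt_iff₀ hp0]; exact hcond)
  have hσ1 : 0 ≤ σ0 := le_max_left _ _
  have hσ2 : (((m : ℝ) - β) * (p - 2) - γ) / p ≤ σ0 := le_max_right _ _
  set s2' : ℝ := (s2 + σ0) / 2 with hs2'
  have hs2'0 : 0 ≤ s2' := by rw [hs2']; linarith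
  have hlt : s2' < s2 := by rw [hs2']; linarith
  have hgt : σ0 < s2' := by rw [hs2']; linarith
  set θ : ℝ := max 0 (((m : ℝ) - β) * (p - 2) - s2' * p) with hθd
  have hθ0 : 0 ≤ θ := le_max_left _ _
  have hθγ : θ < γ := by
    refine max_lt hγ ?_
    have h1 : (((m : ℝ) - β) * (p - 2) - γ) / p < s2' := lt_of_le_of_lt hσ2 hgt
    rw [div_lt_iff₀ hp0] at h1
    linarith
  have hθ : ((m : ℝ) - β) * (p - 2) - s2' * p ≤ θ := le_max_right _ _
  set δ : ℝ := s2 - s2' with hδ
  have hδ0 : 0 < δ := by rw [hδ]; linarith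
  set c : ℝ := min (1 / 2) (δ * p / (2 * m)) with hc
  have hc0 : 0 < c := lt_min (by norm_num) (by positivity)
  have hc1 : c ≤ 1 / 2 := min_le_left _ _
  have hc2 : c ≤ δ * p / (2 * m) := min_le_right _ _
  have hC' : 0 < CC m p s2' γ θ R0 := CC_pos m hR hθγ
  set C' : ℝ := CC m p s2' γ θ R0 with hC'd
  refine ⟨c, 2 ^ m + C', hc0, by positivity, ?_⟩
  intro a M g ha haR hM hg hD
  have hP : 0 < ∏ i, a i := Finset.prod_pos fun i _ => ha i
  have hbase := fatom_weight hm ha haR hR hM hθ0 hθγ hp hs2'0 hθ hg hD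
  set P := ∏ i, a i with hPd
  have hmf : Measurable (ftm m g) := measurable_ftm hg.1
  have hMp : 0 ≤ M ^ p := Real.rpow_nonneg hM _
  by_cases hP1 : 1 ≤ P
  · have h1 : ∀ η : Fin m → ℝ, ENNReal.ofReal (Wp m p s2 η) * ‖ftm m g η‖ₑ ^ p ≤
        ENNReal.ofReal (Wp m p s2' η) * ‖ftm m g η‖ₑ ^ p := by
      intro η
      refine mul_le_mul_left (ENNReal.ofReal_le_ofReal ?_) _
      have hnr : 0 ≤ nr η := Real.sqrt_nonneg _
      have := Wp_split m hp0.le hlt.le one_pos η (by linarith)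
      rwa [Real.one_rpow, one_mul] at this
    refine (lintegral_mono h1).trans (hbase.trans (ENNReal.ofReal_le_ofReal ?_))
    have h2 : P ≤ P ^ (1 + c) := by
      conv_lhs => rw [← Real.rpow_one P]
      exact Real.rpow_le_rpow_of_exponent_le hP1 (by linarith)
    have h3 : M ^ p * P ≤ M ^ p * P ^ (1 + c) := mul_le_mul_of_nonneg_left h2 hMp
    have h4 : 0 ≤ M ^ p * P ^ (1 + c) := by positivity
    have h5 : (0 : ℝ) ≤ 2 ^ m := by positivity
    nlinarith [mul_le_mul_of_nonneg_left h3 hC'.le, mul_nonneg h5 h4]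
  · push Not at hP1
    set X : ℝ := P ^ (-(1 / (2 * (m : ℝ)))) with hX
    have hX0 : 0 < X := Real.rpow_pos_of_pos hP _
    set b : Fin m → ℝ := fun _ => 1 / X with hb
    have hb0 : ∀ i, 0 < b i := fun i => by rw [hb]; positivity
    set Lo : Set (Fin m → ℝ) := {η | ∀ i, b i * |η i| ≤ 1} with hLo
    have hLom : MeasurableSet Lo := by
      rw [hLo, setOf_forall]
      exact MeasurableSet.iInter fun i => measurableSet_le (meas_abs b i) measurable_const
    set K : ℝ := (X ^ m) ^ (p - 2) * (M * P) ^ p with hK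
    have hK0 : 0 ≤ K := by positivity
    set q : ℝ := X ^ (-(δ * p)) with hq
    have hq0 : 0 ≤ q := by positivity
    have hpt : ∀ η : Fin m → ℝ, ENNReal.ofReal (Wp m p s2 η) * ‖ftm m g η‖ₑ ^ p ≤
        Lo.indicator (fun _ => ENNReal.ofReal K) η +
        ENNReal.ofReal q * (ENNReal.ofReal (Wp m p s2' η) * ‖ftm m g η‖ₑ ^ p) := by
      intro η
      by_cases hη : η ∈ Lo
      · refine le_trans ?_ le_self_add
        rw [indicator_of_mem hη, enorm_pow hp0.le, ← ENNReal.ofReal_mul (Wp_nonneg m p s2 η)]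
        refine ENNReal.ofReal_le_ofReal ?_
        have h1 : ∏ i, |η i| ≤ X ^ m := by
          have : ∏ i : Fin m, |η i| ≤ ∏ _i : Fin m, X := by
            refine Finset.prod_le_prod (fun i _ => abs_nonneg _) fun i _ => ?_
            have h2 : b i * |η i| ≤ 1 := hη i
            rw [hb] at h2
            simp only at h2
            rwa [one_div, inv_mul_le_iff₀ hX0, mul_one] at h2
          rwa [Finset.prod_const, Finset.card_univ, Fintype.card_fin] at this
        have h2 : (∏ i, |η i|) ^ (p - 2) ≤ (X ^ m) ^ (p - 2) :=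
          Real.rpow_le_rpow (Finset.prod_nonneg fun i _ => abs_nonneg _) h1 (by linarith)
        have h3 : kp m s2 η ^ p ≤ 1 :=
          Real.rpow_le_one (kp_nonneg m s2 η) (kp_le_one m hs.le η) hp0.le
        have h4 : Wp m p s2 η ≤ (X ^ m) ^ (p - 2) := by
          unfold Wp
          have h5 : 0 ≤ (∏ i, |η i|) ^ (p - 2) :=
            Real.rpow_nonneg (Finset.prod_nonneg fun i _ => abs_nonneg _) _
          calc (∏ i, |η i|) ^ (p - 2) * kp m s2 η ^ p ≤ (∏ i, |η i|) ^ (p - 2) * 1 :=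
                mul_le_mul_of_nonneg_left h3 h5
            _ ≤ _ := by rw [mul_one]; exact h2
        have h5 : ‖ftm m g η‖ ^ p ≤ (M * P) ^ p :=
          Real.rpow_le_rpow (norm_nonneg _) (atom_bdd ha hM hg η) hp0.le
        exact mul_le_mul h4 h5 (Real.rpow_nonneg (norm_nonneg _) _) (by positivity)
      · refine le_trans ?_ le_add_self
        rw [← mul_assoc, ← ENNReal.ofReal_mul hq0]
        refine mul_le_mul_left (ENNReal.ofReal_le_ofReal ?_) _
        have h1 : ∃ i, 1 < b i * |η i| := by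
          by_contra hcon
          push Not at hcon
          exact hη hcon
        obtain ⟨i, hi⟩ := h1
        have h2 : X ≤ 1 + nr η := by
          have h3 : X < |η i| := by
            rw [hb] at hi
            simp only at hi
            rwa [one_div, lt_inv_mul_iff₀ hX0, mul_one] at hi
          have := nr_ge η i
          linarith
        exact Wp_split m hp0.le hlt.le hX0 η h2
    have hvol : volume Lo = ENNReal.ofReal (2 ^ m * X ^ m) := by
      rw [hLo, vol_low hb0]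
      congr 1
      rw [hb]
      simp only [Finset.prod_const, Finset.card_univ, Fintype.card_fin]
      rw [one_div, inv_pow, div_inv_eq_mul]
    have hXm : X ^ m = P ^ (-(1 / 2 : ℝ)) := by
      rw [hX, ← Real.rpow_natCast, ← Real.rpow_mul hP.le]
      congr 1
      field_simp
    have hKX : K * (2 ^ m * X ^ m) = 2 ^ m * (M ^ p * P ^ ((p + 1) / 2)) := by
      rw [hK, hXm, ← Real.rpow_mul hP.le, Real.mul_rpow hM hP.le]
      have : P ^ (-(1 / 2 : ℝ) * (p - 2)) * P ^ p * P ^ (-(1 / 2 : ℝ)) = P ^ ((p + 1) / 2) := by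
        rw [← Real.rpow_add hP, ← Real.rpow_add hP]
        congr 1
        ring
      rw [← this]
      ring
    have hP2 : P ^ ((p + 1) / 2) ≤ P ^ (1 + c) :=
      Real.rpow_le_rpow_of_exponent_ge hP hP1.le (by linarith)
    have hqP : q * P ≤ P ^ (1 + c) := by
      have h1 : q = P ^ (δ * p / (2 * m)) := by
        rw [hq, hX, ← Real.rpow_mul hP.le]
        congr 1
        field_simp
      have h2 : q ≤ P ^ c := by
        rw [h1]
        exact Real.rpow_le_rpow_of_exponent_ge hP hP1.le hc2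
      rw [add_comm, Real.rpow_add hP, Real.rpow_one]
      exact mul_le_mul_of_nonneg_right h2 hP.le
    calc ∫⁻ η : Fin m → ℝ, ENNReal.ofReal (Wp m p s2 η) * ‖ftm m g η‖ₑ ^ p
        ≤ ∫⁻ η : Fin m → ℝ, (Lo.indicator (fun _ => ENNReal.ofReal K) η +
        ENNReal.ofReal q * (ENNReal.ofReal (Wp m p s2' η) * ‖ftm m g η‖ₑ ^ p)) :=
          lintegral_mono hpt
      _ = ENNReal.ofReal K * ENNReal.ofReal (2 ^ m * X ^ m) + ENNReal.ofReal q *
          ∫⁻ η : Fin m → ℝ, ENNReal.ofReal (Wp m p s2' η) * ‖ftm m g η‖ₑ ^ p := by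
          rw [lintegral_add_left (measurable_const.indicator hLom), lintegral_indicator hLom,
            setLIntegral_const, hvol, lintegral_const_mul' _ _ ENNReal.ofReal_ne_top]
      _ ≤ ENNReal.ofReal (2 ^ m * (M ^ p * P ^ ((p + 1) / 2))) +
          ENNReal.ofReal (q * (C' * (M ^ p * P))) := by
          refine add_le_add (le_of_eq ?_) ?_
          · rw [← ENNReal.ofReal_mul hK0, hKX]
          · rw [ENNReal.ofReal_mul hq0]
            exact mul_le_mul_right hbase _
      _ = ENNReal.ofReal (2 ^ m * (M ^ p * P ^ ((p + 1) / 2)) + q * (C' * (M ^ p * P))) := by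
          rw [← ENNReal.ofReal_add (by positivity) (by positivity)]
      _ ≤ _ := by
          refine ENNReal.ofReal_le_ofReal ?_
          have h1 : 2 ^ m * (M ^ p * P ^ ((p + 1) / 2)) ≤ 2 ^ m * (M ^ p * P ^ (1 + c)) := by
            gcongr
          have h2 : q * (C' * (M ^ p * P)) ≤ C' * (M ^ p * P ^ (1 + c)) := by
            calc q * (C' * (M ^ p * P)) = C' * (M ^ p * (q * P)) := by ring
              _ ≤ _ := by gcongr
          calc _ ≤ 2 ^ m * (M ^ p * P ^ (1 + c)) + C' * (M ^ p * P ^ (1 + c)) := add_le_add h1 h2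
            _ = _ := by ring

end Pool.Agent.Y507.LS2

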